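import Pool.Agent.Helper85.MU.Stmts

set_option autoImplicit false
set_option maxHeartbeats 800000

namespace MU

theorem st_CYC : ST_CYC := by
  intro F _ _ k _ _ l _ p hp hpl 𝔓 h𝔓 j σ hσ
  obtain ⟨hprime, hp𝔓⟩ := h𝔓
  have hl : l.Prime := Fact.out
  have key : ∀ (N : ℕ), 0 < N → (∀ q : ℕ, q.Prime → q ∣ N → q = l) → ∀ (z : Zb F) (a : ℕ),
      z ^ N = 1 → z ^ a - z ^ (p ^ j) ∈ 𝔓 → z ^ a = z ^ (p ^ j) := by
    intro N hN hNl z a hz hmem
    by_contra hne
    set b : ℕ := p ^ j with hb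
    -- `η = z ^ (a + (N - 1) b)`
    have hinv : z ^ b * z ^ ((N - 1) * b) = 1 := by
      rw [← pow_add]
      have : b + (N - 1) * b = N * b := by
        obtain ⟨M, rfl⟩ : ∃ M, N = M + 1 := ⟨N - 1, by omega⟩
        simp only [Nat.add_sub_cancel]
        ring
      rw [this, pow_mul, hz, one_pow]
    set η : Zb F := z ^ a * z ^ ((N - 1) * b) with hη
    have hη1 : η - 1 ∈ 𝔓 := by
      have : η - 1 = (z ^ a - z ^ b) * z ^ ((N - 1) * b) := by
        rw [sub_mul, hinv, hη]
      rw [this]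
      exact Ideal.mul_mem_right _ _ hmem
    have hηne : η ≠ 1 := by
      intro h
      apply hne
      calc z ^ a = z ^ a * (z ^ ((N - 1) * b) * z ^ b) := by rw [mul_comm (z ^ ((N - 1) * b)), hinv, mul_one]
        _ = η * z ^ b := by rw [hη]; ring
        _ = z ^ b := by rw [h, one_mul]
    have hηN : η ^ N = 1 := by
      rw [hη, mul_pow, ← pow_mul, ← pow_mul, mul_comm a, mul_comm ((N - 1) * b), pow_mul, pow_mul, hz,
        one_pow, one_pow, one_mul]
    have hsum : ∑ m ∈ Finset.range N, η ^ m = 0 := by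
      have h1 : (∑ m ∈ Finset.range N, η ^ m) * (η - 1) = 0 := by
        rw [geom_sum_mul, hηN, sub_self]
      rcases mul_eq_zero.mp h1 with h | h
      · exact h
      · exact absurd (sub_eq_zero.mp h) hηne
    have hNmem : (N : Zb F) ∈ 𝔓 := by
      rw [← Ideal.Quotient.eq_zero_iff_mem]
      have h2 : Ideal.Quotient.mk 𝔓 η = 1 := by
        rw [← map_one (Ideal.Quotient.mk 𝔓), Ideal.Quotient.eq]
        exact hη1
      have h3 := congrArg (Ideal.Quotient.mk 𝔓) hsum
      rw [map_sum, map_zero] at h3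
      simp only [map_pow, h2, one_pow, Finset.sum_const, Finset.card_range, nsmul_eq_mul, mul_one] at h3
      rw [map_natCast]
      exact h3
    -- the gcd of `N` and `p` is one
    have hcop : Nat.Coprime N p := by
      rw [Nat.coprime_comm, hp.coprime_iff_not_dvd]
      intro h
      exact hpl (hNl p hp h)
    have hone : (1 : Zb F) ∈ 𝔓 := by
      have hbez := Nat.isCoprime_iff_coprime.mpr hcop
      obtain ⟨u, v, huv⟩ := hbez
      have : (1 : Zb F) = (u : Zb F) * (N : Zb F) + (v : Zb F) * (p : Zb F) := by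
        have := congrArg (fun t : ℤ => (t : Zb F)) huv
        simp only [Int.cast_add, Int.cast_mul, Int.cast_natCast, Int.cast_one] at this
        exact this.symm
      rw [this]
      exact Ideal.add_mem _ (Ideal.mul_mem_left _ _ hNmem) (Ideal.mul_mem_left _ _ hp𝔓)
    exact hprime.ne_top ((Ideal.eq_top_iff_one _).mpr hone)
  -- compute
  refine PadicInt.ext_of_toZModPow.mp fun i => ?_
  have hNpos : 0 < l ^ i := pow_pos hl.pos i
  obtain ⟨ζ, hζ⟩ := HasEnoughRootsOfUnity.exists_primitiveRoot (AlgebraicClosure F) (l ^ i)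
  have hζint : IsIntegral ℤ ζ := hζ.isIntegral hNpos
  set z : Zb F := ⟨ζ, hζint⟩ with hz
  set a : ℕ := (((cyc l k σ : ℤ_[l]ˣ) : ℤ_[l]).toZModPow i).val with ha
  have hspec : σ ζ = ζ ^ a :=
    cyclotomicCharacter.spec l (n := i) ((MulSemiringAction.toRingAut
      (AlgebraicClosure F ≃ₐ[k] AlgebraicClosure F) (AlgebraicClosure F)) σ) ζ hζ.pow_eq_one
  have hzN : z ^ (l ^ i) = 1 := by
    apply Subtype.ext
    simpa [hz] using hζ.pow_eq_one
  have hmem : z ^ a - z ^ (p ^ j) ∈ 𝔓 := by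
    refine hσ z (z ^ a) ?_
    simp only [hz, SubmonoidClass.coe_pow]
    exact hspec.symm
  have hE := key (l ^ i) hNpos (fun q hq hd => (Nat.prime_dvd_prime_iff_eq hq hl).mp
    (hq.dvd_of_dvd_pow hd)) z a hzN hmem
  have hE' : ζ ^ a = ζ ^ (p ^ j) := by
    have := congrArg (fun t : Zb F => (t : AlgebraicClosure F)) hE
    simpa [hz] using this
  have hmod : a = p ^ j % (l ^ i) := by
    have h4 : ζ ^ (p ^ j) = ζ ^ (p ^ j % (l ^ i)) := by
      conv_rhs => rw [hζ.eq_orderOf]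
      rw [pow_mod_orderOf]
    rw [h4] at hE'
    exact hζ.pow_inj (ZMod.val_lt _) (Nat.mod_lt _ hNpos) hE'
  have h5 : (((cyc l k σ : ℤ_[l]ˣ) : ℤ_[l]).toZModPow i) = ((a : ℕ) : ZMod (l ^ i)) := by
    rw [ha, ZMod.natCast_val, ZMod.cast_id]
  rw [h5, hmod, map_pow, map_natCast, ZMod.natCast_mod, Nat.cast_pow]

end MU
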