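import Pool.Agent.Helper85.MU.Stmts

set_option autoImplicit false
set_option maxHeartbeats 800000

namespace MU

section

variable (F : Type) [Field F] [NumberField F]

theorem idx_alg : Algebra.IsAlgebraic ℚ (AlgebraicClosure F) :=
  Algebra.IsAlgebraic.trans ℚ F (AlgebraicClosure F)

theorem idx_gal : IsGalois ℚ (AlgebraicClosure F) := by
  have := idx_alg F
  have : IsAlgClosure ℚ (AlgebraicClosure F) := ⟨inferInstance, inferInstance⟩
  have : Normal ℚ (AlgebraicClosure F) := IsAlgClosure.normal ℚ _
  exact { }

/-- the image of `F` -/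
noncomputable def idxK : IntermediateField ℚ (AlgebraicClosure F) :=
  (IsScalarTower.toAlgHom ℚ F (AlgebraicClosure F)).fieldRange

theorem idx_mem (x : AlgebraicClosure F) :
    x ∈ idxK F ↔ ∃ y : F, algebraMap F (AlgebraicClosure F) y = x := by
  unfold idxK
  rw [AlgHom.mem_fieldRange]
  rfl

noncomputable def idxKe : F ≃ₐ[ℚ] idxK F :=
  AlgEquiv.ofInjectiveField (IsScalarTower.toAlgHom ℚ F (AlgebraicClosure F))

theorem idx_fin : FiniteDimensional ℚ (idxK F) :=
  LinearEquiv.finiteDimensional (idxKe F).toLinearEquiv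

/-- the equivalence -/
noncomputable def idxE : Gal F ≃* (idxK F).fixingSubgroup where
  toFun g := ⟨AlgEquiv.restrictScalars ℚ g, by
    rw [IntermediateField.mem_fixingSubgroup_iff]
    intro x hx
    obtain ⟨y, rfl⟩ := (idx_mem F x).mp hx
    exact g.commutes y⟩
  invFun h := AlgEquiv.ofRingEquiv (f := ((h : GalQ F) : AlgebraicClosure F ≃+* AlgebraicClosure F))
    (by
      intro y
      exact (IntermediateField.mem_fixingSubgroup_iff (idxK F) (h : GalQ F)).mp h.2 _
        ((idx_mem F _).mpr ⟨y, rfl⟩))
  left_inv g := by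
    ext x
    rfl
  right_inv h := by
    apply Subtype.ext
    apply AlgEquiv.ext
    intro x
    rfl
  map_mul' g g' := by
    apply Subtype.ext
    apply AlgEquiv.ext
    intro x
    rfl

theorem idxE_apply (g : Gal F) (x : AlgebraicClosure F) :
    ((idxE F g : (idxK F).fixingSubgroup) : GalQ F) x = g x := rfl

theorem idxE_symm_apply (h : (idxK F).fixingSubgroup) (x : AlgebraicClosure F) :
    (idxE F).symm h x = (h : GalQ F) x := rfl

theorem idxE_cont : Continuous (fun g : Gal F => ((idxE F g : (idxK F).fixingSubgroup) : GalQ F)) := by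
  let r : Gal F →* GalQ F := (idxK F).fixingSubgroup.subtype.comp (idxE F).toMonoidHom
  have hr : ∀ (σ : Gal F) x, r σ x = σ x := fun σ x => rfl
  change Continuous r
  apply continuous_of_continuousAt_one r
  intro s hs
  rw [map_one] at hs
  obtain ⟨E, hE, hEs⟩ := (krullTopology_mem_nhds_one_iff ℚ (AlgebraicClosure F) s).1 hs
  rw [Filter.mem_map]
  have hfg : E.FG := IntermediateField.essFiniteType_iff.mp inferInstance
  obtain ⟨t, ht, htE⟩ := IntermediateField.fg_def.mp hfg
  let E' : IntermediateField F (AlgebraicClosure F) := IntermediateField.adjoin F t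
  have hE' : FiniteDimensional F E' := by
    have := ht.to_subtype
    apply IntermediateField.finiteDimensional_adjoin
    intro x _
    exact (Algebra.IsAlgebraic.isAlgebraic x).isIntegral
  refine (krullTopology_mem_nhds_one_iff F (AlgebraicClosure F) _).2 ⟨E', hE', ?_⟩
  intro σ hσ
  apply hEs
  change r σ ∈ E.fixingSubgroup
  rw [IntermediateField.mem_fixingSubgroup_iff]
  intro x hx
  rw [hr]
  refine (IntermediateField.mem_fixingSubgroup_iff E' σ).1 hσ _ ?_
  have hle : E ≤ E'.restrictScalars ℚ := by
    rw [← htE, IntermediateField.adjoin_le_iff]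
    exact IntermediateField.subset_adjoin F t
  exact hle hx

theorem idxE_symm_cont : Continuous (fun h : (idxK F).fixingSubgroup => (idxE F).symm h) := by
  let r : (idxK F).fixingSubgroup →* Gal F := (idxE F).symm.toMonoidHom
  have hr : ∀ (h : (idxK F).fixingSubgroup) x, r h x = (h : GalQ F) x := fun h x => rfl
  change Continuous r
  apply continuous_of_continuousAt_one r
  intro s hs
  rw [map_one] at hs
  obtain ⟨E, hE, hEs⟩ := (krullTopology_mem_nhds_one_iff F (AlgebraicClosure F) s).1 hs
  rw [Filter.mem_map]
  let E' : IntermediateField ℚ (AlgebraicClosure F) := E.restrictScalars ℚ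
  have hE' : FiniteDimensional ℚ E' := by
    have : FiniteDimensional ℚ E := FiniteDimensional.trans ℚ F E
    exact this
  have h1 : IsOpen (E'.fixingSubgroup : Set (GalQ F)) := E'.fixingSubgroup_isOpen
  have h2 : (Subtype.val ⁻¹' (E'.fixingSubgroup : Set (GalQ F)) : Set (idxK F).fixingSubgroup) ∈
      nhds (1 : (idxK F).fixingSubgroup) :=
    (h1.preimage continuous_subtype_val).mem_nhds (by
      simp only [Set.mem_preimage, OneMemClass.coe_one, SetLike.mem_coe]
      exact one_mem _)
  refine Filter.mem_of_superset h2 ?_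
  intro h hh
  apply hEs
  change r h ∈ E.fixingSubgroup
  rw [IntermediateField.mem_fixingSubgroup_iff]
  intro x hx
  rw [hr]
  exact (IntermediateField.mem_fixingSubgroup_iff E' (h : GalQ F)).1 hh x hx

end

theorem st_IDX : ST_IDX := by
  intro F _ _
  have := idx_gal F
  have := idx_fin F
  refine ⟨(idxK F).fixingSubgroup, idxE F, idxE_apply F, (idxK F).fixingSubgroup_isOpen,
    idxE_cont F, idxE_symm_cont F, ?_⟩
  rw [← IntermediateField.finrank_eq_fixingSubgroup_index, (idxKe F).toLinearEquiv.finrank_eq]

end MU
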